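import Pool.Agent.TH450.PC.E6
import Pool.Agent.TH450.PC.D5
import Pool.Agent.TH450.PC.D6

/-!
# Powers of a nonarchimedean absolute value and the constant free local estimates (helper450)
-/

set_option autoImplicit false

namespace Pool.Agent.TH450.FG

open Pool.Agent.H951R3.PB Pool.Agent.TH450.PC Real Filter Topology

universe u

section pw

variable {L : Type u} [Field L]

/-- the power `x ↦ (w x)^s` of a nonarchimedean absolute value -/
noncomputable def pw (w : AbsoluteValue L ℝ) (hw : IsNonarchimedean w) (s : ℝ) (hs : 0 < s) :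
    AbsoluteValue L ℝ where
  toFun x := (w x) ^ s
  map_mul' x y := by
    rw [w.map_mul, Real.mul_rpow (w.nonneg _) (w.nonneg _)]
  nonneg' x := Real.rpow_nonneg (w.nonneg _) _
  eq_zero' x := by
    show (w x) ^ s = 0 ↔ x = 0
    rw [Real.rpow_eq_zero (w.nonneg _) hs.ne', w.eq_zero]
  add_le' x y := by
    show (w (x + y)) ^ s ≤ (w x) ^ s + (w y) ^ s
    have h1 : 0 ≤ (w x) ^ s := Real.rpow_nonneg (w.nonneg _) _
    have h2 : 0 ≤ (w y) ^ s := Real.rpow_nonneg (w.nonneg _) _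
    rcases max_choice (w x) (w y) with h | h
    · have h3 : w (x + y) ≤ w x := by
        have := hw x y
        rwa [h] at this
      have h4 := Real.rpow_le_rpow (w.nonneg _) h3 hs.le
      linarith
    · have h3 : w (x + y) ≤ w y := by
        have := hw x y
        rwa [h] at this
      have h4 := Real.rpow_le_rpow (w.nonneg _) h3 hs.le
      linarith

variable (w : AbsoluteValue L ℝ) (hw : IsNonarchimedean w) (s : ℝ) (hs : 0 < s)

theorem pw_apply (x : L) : pw w hw s hs x = (w x) ^ s := rfl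

theorem pw_na : IsNonarchimedean (pw w hw s hs) := by
  intro x y
  rw [pw_apply, pw_apply, pw_apply]
  rcases max_choice (w x) (w y) with h | h
  · have h3 : w (x + y) ≤ w x := by
      have := hw x y
      rwa [h] at this
    exact (Real.rpow_le_rpow (w.nonneg _) h3 hs.le).trans (le_max_left _ _)
  · have h3 : w (x + y) ≤ w y := by
      have := hw x y
      rwa [h] at this
    exact (Real.rpow_le_rpow (w.nonneg _) h3 hs.le).trans (le_max_right _ _)

theorem rpow_log {s : ℝ} (hs : 0 < s) {t : ℝ} (ht : 0 ≤ t) : log (t ^ s) = s * log t := by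
  rcases ht.eq_or_lt with h | h
  · rw [← h, Real.zero_rpow hs.ne']
    simp
  · exact Real.log_rpow h s

theorem pw_log (x : L) : log (pw w hw s hs x) = s * log (w x) := by
  rw [pw_apply]
  exact rpow_log hs (w.nonneg _)

theorem nrm_nonneg (x : Fin 2 → L) : 0 ≤ nrm w x := (w.nonneg _).trans (le_max_left _ _)

theorem pw_nrm (x : Fin 2 → L) : nrm (pw w hw s hs) x = (nrm w x) ^ s := by
  unfold nrm
  rw [pw_apply, pw_apply]
  rcases le_total (w (x 0)) (w (x 1)) with h | h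
  · rw [max_eq_right h, max_eq_right (Real.rpow_le_rpow (w.nonneg _) h hs.le)]
  · rw [max_eq_left h, max_eq_left (Real.rpow_le_rpow (w.nonneg _) h hs.le)]

theorem pw_lognrm (x : Fin 2 → L) : log (nrm (pw w hw s hs) x) = s * log (nrm w x) := by
  rw [pw_nrm]
  exact rpow_log hs (nrm_nonneg w x)

theorem pw_unit (x : Fin 2 → L) : nrm (pw w hw s hs) x = 1 ↔ nrm w x = 1 := by
  rw [pw_nrm]
  constructor
  · intro h
    by_contra hne
    rcases lt_or_gt_of_ne hne with h1 | h1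
    · exact absurd h (Real.rpow_lt_one (nrm_nonneg w x) h1 hs).ne
    · exact absurd h (Real.one_lt_rpow h1 hs).ne'
  · intro h
    rw [h, Real.one_rpow]

theorem pw_fib {F : (Fin 2 → L) → Fin 2 → L} {D : ℕ} {r : ℝ} (h : Fib w F D r) :
    Fib (pw w hw s hs) F D (s * r) := by
  intro u hu
  obtain ⟨C, z, hz⟩ := h u ((pw_unit w hw s hs u).1 hu)
  refine ⟨C, z, hz.C_ne, fun j => (pw_unit w hw s hs _).2 (hz.unit j), hz.fac, hz.img, ?_⟩
  rw [pw_log, ← hz.res, mul_add, Finset.mul_sum]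
  congr 1
  · ring
  · exact Finset.sum_congr rfl fun j _ => pw_lognrm w hw s hs _

theorem pw_Ssup (F : (Fin 2 → L) → Fin 2 → L) : Ssup (pw w hw s hs) F = s * Ssup w F := by
  unfold Ssup
  rw [Real.mul_iSup_of_nonneg hs.le]
  let e : {x : Fin 2 → L // nrm (pw w hw s hs) x = 1} ≃ {x : Fin 2 → L // nrm w x = 1} :=
    Equiv.subtypeEquivRight fun x => pw_unit w hw s hs x
  refine Equiv.iSup_congr e fun x => ?_
  exact (pw_lognrm w hw s hs _).symm

theorem pw_tt (F : (Fin 2 → L) → Fin 2 → L) (D : ℕ) (r : ℝ) :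
    tt (pw w hw s hs) F D (s * r) = s * tt w F D r := by
  unfold tt
  rw [pw_Ssup]
  ring

theorem pw_cr (d : ℕ) (r : ℝ) (a b : Fin 2 → L) :
    cr (pw w hw s hs) d (s * r) a b = s * cr w d r a b := by
  unfold cr
  rw [pw_log]
  ring

theorem pw_mm (F : (Fin 2 → L) → Fin 2 → L) (d : ℕ) (r : ℝ) :
    mm (pw w hw s hs) F d (s * r) = s * mm w F d r := by
  unfold mm
  rw [Real.mul_iInf_of_nonneg hs.le]
  congr 1
  funext p
  rw [pw_cr, pw_tt]

theorem pw_Gr [IsAlgClosed L] {F : (Fin 2 → L) → Fin 2 → L} {d : ℕ} (hd : 2 ≤ d)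
    {r : ℝ} (h : Fib w F d r) {x : Fin 2 → L} (hx : x ≠ 0) :
    Gr (pw w hw s hs) F d x = s * Gr w F d x := by
  have h1 := gr_tendsto hd (pw_fib w hw s hs h) hx
  have h2 := (gr_tendsto hd h hx).const_mul s
  refine tendsto_nhds_unique h1 ?_
  refine h2.congr fun n => ?_
  rw [pw_lognrm]
  ring

theorem pw_gg [IsAlgClosed L] {F : (Fin 2 → L) → Fin 2 → L} {d : ℕ} (hd : 2 ≤ d)
    {r : ℝ} (h : Fib w F d r) {x y : Fin 2 → L} (hx : x ≠ 0) (hy : y ≠ 0) :
    gg (pw w hw s hs) F d (s * r) x y = s * gg w F d r x y := by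
  unfold gg
  rw [pw_Gr w hw s hs hd h hx, pw_Gr w hw s hs hd h hy, pw_log]
  unfold ta
  ring

end pw

theorem wd_ne_left {L : Type u} [Field L] {x y : Fin 2 → L} (h : wd x y ≠ 0) : x ≠ 0 := by
  rintro rfl
  exact h (by simp [wd])

theorem wd_ne_right {L : Type u} [Field L] {x y : Fin 2 → L} (h : wd x y ≠ 0) : y ≠ 0 := by
  rintro rfl
  exact h (by simp [wd])

theorem lam_nonneg {L : Type u} [Field L] (w : AbsoluteValue L ℝ) (hw : IsNonarchimedean w)
    {x y : Fin 2 → L} (h : wd x y ≠ 0) : 0 ≤ lam w x y := by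
  unfold lam
  have hx := B1_nrm_pos w (wd_ne_left h)
  have hy := B1_nrm_pos w (wd_ne_right h)
  rw [← Real.log_mul hx.ne' hy.ne', sub_nonneg]
  exact Real.log_le_log (w.pos h) (A2_wd_le_na w hw x y)

/-- a real number which is at least `-B/s` for all large `s` is nonnegative -/
theorem nonneg_of_scale {a B : ℝ} (h : ∀ s : ℝ, 0 < s → -B ≤ s * a) : 0 ≤ a := by
  by_contra hcon
  push Not at hcon
  have h1 := h ((|B| + 1) / (-a)) (div_pos (by positivity) (by linarith))
  have h2 : (|B| + 1) / (-a) * a = -(|B| + 1) := by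
    have h3 : -a ≠ 0 := by linarith
    rw [div_mul_eq_mul_div, div_eq_iff h3]
    ring
  rw [h2] at h1
  have := le_abs_self B
  linarith

/-- **Loss without a constant.** -/
theorem lossNA (d : ℕ) (hd : 2 ≤ d) (L : Type u) [Field L] [IsAlgClosed L]
    (w : AbsoluteValue L ℝ) (hw : IsNonarchimedean w)
    (f : Fin 2 → MvPolynomial (Fin 2) L) (hf : ∀ i, (f i).IsHomogeneous d) (h0 : rs f d ≠ 0)
    (m : ℕ) (x : Fin (d ^ m) → Fin 2 → L) (hx : ∀ i, x i ≠ 0)
    (hxx : ∀ i j, i ≠ j → wd (x i) (x j) ≠ 0) :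
    -((d : ℝ) ^ m * (m * mm w (ev f) d (log (w (rs f d))))) ≤
      ∑ i, ∑ j ∈ Finset.Ioi i, gg w (ev f) d (log (w (rs f d))) (x i) (x j) := by
  obtain ⟨B, hB0, hB⟩ := loss.{u} d hd
  have hfib := fib_base w (by omega : 1 ≤ d) hf h0
  have key : ∀ s : ℝ, 0 < s → -((d : ℝ) ^ m * (m * B)) ≤
      s * (∑ i, ∑ j ∈ Finset.Ioi i, gg w (ev f) d (log (w (rs f d))) (x i) (x j) +
        (d : ℝ) ^ m * (m * mm w (ev f) d (log (w (rs f d))))) := by
    intro s hs
    have h1 := hB L (pw w hw s hs) f hf h0 m x hx hxx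
    rw [pw_log, pw_mm] at h1
    have h2 : ∑ i, ∑ j ∈ Finset.Ioi i, gg (pw w hw s hs) (ev f) d (s * log (w (rs f d)))
        (x i) (x j) =
        s * ∑ i, ∑ j ∈ Finset.Ioi i, gg w (ev f) d (log (w (rs f d))) (x i) (x j) := by
      rw [Finset.mul_sum]
      refine Finset.sum_congr rfl fun i _ => ?_
      rw [Finset.mul_sum]
      refine Finset.sum_congr rfl fun j _ => ?_
      exact pw_gg w hw s hs hd hfib (hx i) (hx j)
    rw [h2] at h1
    linarith
  have := nonneg_of_scale key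
  linarith

/-- **Gain without a constant.** -/
theorem gainNA (d : ℕ) (hd : 2 ≤ d) : ∃ (M : ℕ) (c : ℝ), 0 < c ∧
    ∀ (L : Type u) [Field L] [IsAlgClosed L] (w : AbsoluteValue L ℝ),
      IsNonarchimedean w →
    ∀ (F : (Fin 2 → L) → Fin 2 → L) (r : ℝ), Fib w F d r → 0 < mm w F d r →
    ∃ cell : (Fin 2 → L) → Fin M, ∀ x y, wd x y ≠ 0 → cell x = cell y →
      c * mm w F d r ≤ gg w F d r x y := by
  obtain ⟨M, c, B, hc, hB0, hB⟩ := gain.{u} d hd
  refine ⟨M, c / 2, by positivity, ?_⟩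
  intro L _ _ w hw F r h hmm
  have hs : 0 < (2 * B + 1) / (c * mm w F d r) := by positivity
  set s : ℝ := (2 * B + 1) / (c * mm w F d r) with hsdef
  obtain ⟨cell, hcell⟩ := hB L (pw w hw s hs) F (s * r) (pw_fib w hw s hs h)
  refine ⟨cell, fun x y hxy hc' => ?_⟩
  have h1 := hcell x y hxy hc'
  rw [pw_mm, pw_gg w hw s hs hd h (wd_ne_left hxy) (wd_ne_right hxy)] at h1
  have h2 : s * (c * mm w F d r) = 2 * B + 1 := by
    rw [hsdef]
    field_simp
  have h3 : 0 ≤ s * (gg w F d r x y - c / 2 * mm w F d r) := by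
    nlinarith
  have h4 : 0 ≤ gg w F d r x y - c / 2 * mm w F d r := by
    by_contra hcon
    push Not at hcon
    nlinarith
  linarith

/-- **No loss for small size.** -/
theorem gg_nonneg (d : ℕ) (hd : 2 ≤ d) (L : Type u) [Field L] [IsAlgClosed L]
    (w : AbsoluteValue L ℝ) (hw : IsNonarchimedean w)
    (F : (Fin 2 → L) → Fin 2 → L) (r : ℝ) (h : Fib w F d r) (hmm : mm w F d r ≤ 0)
    {x y : Fin 2 → L} (hxy : wd x y ≠ 0) : 0 ≤ gg w F d r x y := by
  obtain ⟨B, hB0, hB⟩ := gg_ge_lam.{u} d hd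
  refine nonneg_of_scale (B := B) fun s hs => ?_
  obtain ⟨a, b, hab, h1⟩ := hB L (pw w hw s hs) F (s * r) (pw_fib w hw s hs h)
  have h2 := h1 x y hxy
  rw [pw_mm, pw_gg w hw s hs hd h (wd_ne_left hxy) (wd_ne_right hxy)] at h2
  have h3 : max (s * mm w F d r) 0 = 0 := max_eq_right (by nlinarith)
  rw [h3] at h2
  have h4 : 0 ≤ lam (pw w hw s hs) (coo a b x) (coo a b y) := by
    apply lam_nonneg _ (pw_na w hw s hs)
    intro h0
    have h5 := D2.wd_emb a b (coo a b x) (coo a b y)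
    rw [D2.emb_coo hab, D2.emb_coo hab, h0, mul_zero] at h5
    exact hxy h5
  linarith

end Pool.Agent.TH450.FG
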