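import Pool.Agent.H951R3.PB.F9a

/-!
# Counting argument without constants (helper450)
-/

set_option autoImplicit false

namespace Pool.Agent.TH450.FG

open Real Finset

theorem count_zero {V : Type*} [DecidableEq V] {d : ℕ} (hd : 2 ≤ d) {I : Type*} [Fintype I]
    [DecidableEq I] [Nonempty I] (m : I → ℝ) (hm : ∀ i, 0 < m i)
    (g : I → V → V → ℝ) {c : ℝ} (hc : 0 < c) (X : Finset V)
    (loss : ∀ i, ∀ (k : ℕ) (x : Fin (d ^ k) → V), Function.Injective x → (∀ j, x j ∈ X) →
      -((d : ℝ) ^ k * (k * m i)) ≤ ∑ a, ∑ b ∈ Ioi a, g i (x a) (x b))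
    {M : ℕ} (gain : ∀ i, ∃ cell : V → Fin M, ∀ x ∈ X, ∀ y ∈ X, x ≠ y → cell x = cell y →
      c * m i ≤ g i x y)
    (glob : ∀ x ∈ X, ∀ y ∈ X, x ≠ y → ∑ i, g i x y ≤ 0) :
    (X.card : ℝ) ≤ M * d * (1 + 2 / c * Fintype.card I * Nat.log d X.card) := by
  obtain ⟨i₁, -, hi₁⟩ := Finset.exists_max_image (Finset.univ : Finset I) m
    Finset.univ_nonempty
  obtain ⟨cell, hcell⟩ := gain i₁
  rcases X.eq_empty_or_nonempty with rfl | hX
  · simp
    positivity
  obtain ⟨p, hp⟩ : ∃ p : Fin M, X.card ≤ M * (X.filter fun x => cell x = p).card := by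
    by_contra hcon
    push Not at hcon
    have h1 : X.card = ∑ p : Fin M, (X.filter fun x => cell x = p).card :=
      Finset.card_eq_sum_card_fiberwise (fun x _ => Finset.mem_univ _)
    obtain ⟨x₀, hx₀⟩ := hX
    have hne : (Finset.univ : Finset (Fin M)).Nonempty := ⟨cell x₀, Finset.mem_univ _⟩
    have h2 : ∑ p : Fin M, M * (X.filter fun x => cell x = p).card <
        ∑ _p : Fin M, X.card := Finset.sum_lt_sum_of_nonempty hne fun p _ => hcon p
    rw [← Finset.mul_sum, ← h1, Finset.sum_const, Finset.card_univ, Fintype.card_fin,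
      smul_eq_mul] at h2
    exact absurd h2 (lt_irrefl _)
  set Y := X.filter fun x => cell x = p with hY
  have hYX : Y ⊆ X := Finset.filter_subset _ _
  have hYpos : Y.card ≠ 0 := by
    intro h0
    rw [h0, mul_zero] at hp
    exact hX.card_pos.ne' (Nat.le_zero.1 hp)
  set k := Nat.log d Y.card with hk
  have hk1 : d ^ k ≤ Y.card := Nat.pow_log_le_self d hYpos
  have hk2 : Y.card < d ^ (k + 1) := Nat.lt_pow_succ_log_self (by omega) _
  obtain ⟨Z, hZY, hZ⟩ := Finset.exists_subset_card_eq hk1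
  let e : Fin (d ^ k) ≃ Z := (Finset.equivFinOfCardEq hZ).symm
  let x : Fin (d ^ k) → V := fun j => (e j : V)
  have hxinj : Function.Injective x := fun a b h => e.injective (Subtype.ext h)
  have hxY : ∀ j, x j ∈ Y := fun j => hZY (e j).2
  have hxX : ∀ j, x j ∈ X := fun j => hYX (hxY j)
  have hxp : ∀ j, cell (x j) = p := fun j => (Finset.mem_filter.1 (hxY j)).2
  have hxne : ∀ a b : Fin (d ^ k), b ∈ Ioi a → x a ≠ x b := by
    intro a b hab h
    exact (Finset.mem_Ioi.1 hab).ne (hxinj h)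
  set N : ℝ := ((d ^ k : ℕ) : ℝ) with hN
  have hN1 : 1 ≤ N := by
    rw [hN]
    exact_mod_cast Nat.one_le_pow _ _ (by omega)
  have hN0 : 0 < N := by linarith
  have hNd : N = (d : ℝ) ^ k := by rw [hN]; push_cast; rfl
  let s : I → ℝ := fun i => ∑ a, ∑ b ∈ Ioi a, g i (x a) (x b)
  have hk0 : (0 : ℝ) ≤ k := Nat.cast_nonneg _
  have hloss : ∀ i, -(N * (k * m i₁)) ≤ s i := by
    intro i
    have h1 := loss i k x hxinj hxX
    rw [← hNd] at h1
    have h2 := hi₁ i (Finset.mem_univ _)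
    have h3 : N * (k * m i) ≤ N * (k * m i₁) := by gcongr
    show -(N * (k * m i₁)) ≤ ∑ a, ∑ b ∈ Ioi a, g i (x a) (x b)
    linarith
  have hgain : N * (N - 1) / 2 * (c * m i₁) ≤ s i₁ := by
    have h1 := Pool.Agent.H951R3.PB.sum_Ioi_const (d ^ k) (c * m i₁)
    rw [← hN] at h1
    rw [← h1]
    refine Finset.sum_le_sum fun a _ => Finset.sum_le_sum fun b hb => ?_
    exact hcell _ (hxX a) _ (hxX b) (hxne a b hb) ((hxp a).trans (hxp b).symm)
  have hsum : ∑ i, s i ≤ 0 := by
    have h1 : ∑ i, s i = ∑ a, ∑ b ∈ Ioi a, ∑ i, g i (x a) (x b) := by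
      simp only [s]
      rw [Finset.sum_comm]
      refine Finset.sum_congr rfl fun a _ => ?_
      rw [Finset.sum_comm]
    rw [h1]
    refine Finset.sum_nonpos fun a _ => Finset.sum_nonpos fun b hb => ?_
    exact glob _ (hxX a) _ (hxX b) (hxne a b hb)
  rw [← Finset.add_sum_erase _ _ (Finset.mem_univ i₁)] at hsum
  have hrest : -((Fintype.card I : ℝ) * (N * (k * m i₁))) ≤
      ∑ i ∈ Finset.univ.erase i₁, s i := by
    have h1 : ∑ _i ∈ Finset.univ.erase i₁, -(N * (k * m i₁)) ≤
        ∑ i ∈ Finset.univ.erase i₁, s i := Finset.sum_le_sum fun i _ => hloss i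
    rw [Finset.sum_const, nsmul_eq_mul] at h1
    have h2 : ((Finset.univ.erase i₁).card : ℝ) ≤ Fintype.card I := by
      exact_mod_cast Finset.card_le_univ _
    have h3 : 0 ≤ N * (k * m i₁) := by
      have := (hm i₁).le
      positivity
    nlinarith
  have hm1 := hm i₁
  have hfin : N ≤ 1 + 2 / c * Fintype.card I * k := by
    have h1 : N * (N - 1) / 2 * (c * m i₁) ≤ (Fintype.card I : ℝ) * (N * (k * m i₁)) := by
      linarith
    have h2 : (N * m i₁) * ((N - 1) / 2 * c) ≤ (N * m i₁) * (Fintype.card I * k) := by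
      linarith
    have h3 : (N - 1) / 2 * c ≤ Fintype.card I * k :=
      le_of_mul_le_mul_left h2 (by positivity)
    have h4 : N - 1 ≤ 2 / c * (Fintype.card I * k) := by
      rw [div_mul_eq_mul_div, le_div_iff₀ hc]
      linarith
    linarith
  have hkX : k ≤ Nat.log d X.card := Nat.log_mono_right (Finset.card_le_card hYX)
  have hkX' : (k : ℝ) ≤ Nat.log d X.card := by exact_mod_cast hkX
  have hYle : (Y.card : ℝ) ≤ d * N := by
    have h1 : Y.card ≤ d * d ^ k := by
      rw [pow_succ] at hk2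
      linarith
    rw [hN]
    exact_mod_cast h1
  have hp' : (X.card : ℝ) ≤ M * Y.card := by exact_mod_cast hp
  calc (X.card : ℝ) ≤ M * Y.card := hp'
    _ ≤ M * (d * N) := by gcongr
    _ ≤ M * (d * (1 + 2 / c * Fintype.card I * Nat.log d X.card)) := by
        have h5 : N ≤ 1 + 2 / c * Fintype.card I * Nat.log d X.card := by
          refine hfin.trans ?_
          gcongr
        gcongr
    _ = _ := by ring

/-- solving `m ≤ C r (1 + 2 log m)` -/
theorem real_end {C r m : ℝ} (hC : 1 ≤ C) (hr : 1 ≤ r) (hm : 0 < m)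
    (h : m ≤ C * r * (1 + 2 * log m)) :
    m ≤ 4 * C * (log (4 * C) / log 2 + 1) * r * log (1 + r) := by
  have hl2 : 0 < log (2 : ℝ) := log_pos (by norm_num)
  have ha : 0 < 4 * C * r := by positivity
  have h1 : log m ≤ log (4 * C * r) + m / (4 * C * r) - 1 := by
    have h2 := log_le_sub_one_of_pos (div_pos hm ha)
    rw [log_div hm.ne' ha.ne'] at h2
    linarith
  have h3 : C * r * (2 * (m / (4 * C * r))) = m / 2 := by
    field_simp
    ring
  have h4 : m ≤ C * r * (2 * log (4 * C * r) - 1) + m / 2 := by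
    calc m ≤ C * r * (1 + 2 * log m) := h
      _ ≤ C * r * (1 + 2 * (log (4 * C * r) + m / (4 * C * r) - 1)) := by
          refine mul_le_mul_of_nonneg_left ?_ (by positivity)
          linarith
      _ = C * r * (2 * log (4 * C * r) - 1) + C * r * (2 * (m / (4 * C * r))) := by ring
      _ = _ := by rw [h3]
  have h5 : m ≤ 4 * C * r * log (4 * C * r) := by
    have h6 : 0 < C * r := by positivity
    nlinarith
  refine h5.trans ?_
  have h7 : log (4 * C * r) = log (4 * C) + log r := log_mul (by positivity) (by positivity)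
  have h8 : log r ≤ log (1 + r) := log_le_log (by linarith) (by linarith)
  have h9 : log 2 ≤ log (1 + r) := log_le_log (by norm_num) (by linarith)
  have h10 : 0 ≤ log (4 * C) := log_nonneg (by linarith)
  have h11 : log (4 * C) ≤ log (4 * C) / log 2 * log (1 + r) := by
    rw [div_mul_eq_mul_div, le_div_iff₀ hl2]
    exact mul_le_mul_of_nonneg_left h9 h10
  calc 4 * C * r * log (4 * C * r) ≤ 4 * C * r * ((log (4 * C) / log 2 + 1) * log (1 + r)) := by
        refine mul_le_mul_of_nonneg_left ?_ (by positivity)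
        rw [h7]
        linarith
    _ = _ := by ring

theorem nat_log_le {d : ℕ} (hd : 2 ≤ d) {n : ℕ} (hn : n ≠ 0) :
    (Nat.log d n : ℝ) ≤ 2 * log n := by
  have h1 : ((d ^ Nat.log d n : ℕ) : ℝ) ≤ n := by exact_mod_cast Nat.pow_log_le_self d hn
  have hd0 : (2 : ℝ) ≤ d := by exact_mod_cast hd
  have h2 : (Nat.log d n : ℝ) * log d ≤ log n := by
    have h3 := log_le_log (by positivity) h1
    rw [Nat.cast_pow, log_pow] at h3
    exact h3
  have h3 : (1 / 2 : ℝ) ≤ log d := by
    have h4 : log 2 ≤ log (d : ℝ) := log_le_log (by norm_num) hd0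
    have := Real.log_two_gt_d9
    linarith
  have h5 : (0 : ℝ) ≤ Nat.log d n := by positivity
  nlinarith

/-- solving for the number of points -/
theorem solve_bound {C : ℝ} (hC : 0 < C) (E : ℝ) (hE : 1 ≤ E) : ∃ C' : ℝ, 0 < C' ∧
    ∀ (d n : ℕ) (r R : ℝ), 2 ≤ d → 1 ≤ r → R ≤ E * r → 0 ≤ R →
      (n : ℝ) ≤ C * (1 + C * R * Nat.log d n) → (n : ℝ) ≤ C' * r * log (1 + r) := by
  set C₁ : ℝ := C * (1 + C * E) + 1 with hC₁
  have hC₁1 : 1 ≤ C₁ := by
    rw [hC₁]
    have : 0 < C * (1 + C * E) := by positivity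
    linarith
  have hl2 : 0 < log (2 : ℝ) := log_pos (by norm_num)
  refine ⟨4 * C₁ * (log (4 * C₁) / log 2 + 1), ?_, ?_⟩
  · have : 0 ≤ log (4 * C₁) := log_nonneg (by linarith)
    positivity
  intro d n r R hd hr hRr hR0 hn
  rcases Nat.eq_zero_or_pos n with h0 | hpos
  · rw [h0]
    have h1 : 0 ≤ log (1 + r) := log_nonneg (by linarith)
    have : 0 ≤ log (4 * C₁) := log_nonneg (by linarith)
    push_cast
    positivity
  have hpos' : (0 : ℝ) < n := by exact_mod_cast hpos
  have hn1 : (1 : ℝ) ≤ n := by exact_mod_cast hpos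
  have hlogn : 0 ≤ log (n : ℝ) := log_nonneg hn1
  refine real_end hC₁1 hr hpos' ?_
  have h1 := nat_log_le hd hpos.ne'
  calc (n : ℝ) ≤ C * (1 + C * R * Nat.log d n) := hn
    _ ≤ C * (1 + C * (E * r) * (2 * log n)) := by gcongr
    _ ≤ C₁ * r * (1 + 2 * log n) := by
        rw [hC₁]
        have h2 : 0 ≤ 2 * log (n : ℝ) := by positivity
        have h3 : C ≤ C * r := by nlinarith
        have h4 : 0 ≤ C * C * E * r := by positivity
        have h5 : 0 ≤ C * r := by positivity
        nlinarith [mul_nonneg h4 h2, mul_nonneg h5 h2,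
          mul_nonneg (by linarith : (0 : ℝ) ≤ r) h2]


end Pool.Agent.TH450.FG
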