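import Pool.Agent.TH450.FG.A
import Pool.Agent.TH450.PC.F4
import Pool.Agent.TH450.PC.F2

/-!
# The pairing of preperiodic vectors (all characteristics) (helper450)
-/

set_option autoImplicit false

namespace Pool.Agent.TH450.FG

open Pool.Agent.H951R3.PB Pool.Agent.TH450.PC Real Finset

universe u

/-- the trivial absolute value is nonarchimedean -/
theorem trivial_na (L : Type u) [Field L] [DecidableEq L] :
    IsNonarchimedean (AbsoluteValue.trivial : AbsoluteValue L ℝ) := by
  intro x y
  by_cases hxy : x + y = 0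
  · rw [hxy]
    simp
  by_cases hx : x = 0
  · subst hx
    simp
  rw [AbsoluteValue.trivial_apply hxy, AbsoluteValue.trivial_apply hx]
  exact le_max_left _ _

/-- an extension of a nonarchimedean absolute value is nonarchimedean -/
theorem ext_na {K : Type u} [Field K] {V : AbsoluteValue K ℝ} (hV : IsNonarchimedean V)
    {w : AbsoluteValue (AlgebraicClosure K) ℝ} (h : Ext V w) : IsNonarchimedean w := by
  have hn : ∀ n : ℕ, w n ≤ 1 := by
    intro n
    have h1 := h (n : K)
    rw [map_natCast] at h1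
    rw [h1]
    exact_mod_cast hV.apply_intCast_le_one (n := (n : ℤ))
  let _ : NormedField (AlgebraicClosure K) := w.toNormedField
  have : IsUltrametricDist (AlgebraicClosure K) :=
    IsUltrametricDist.isUltrametricDist_of_forall_norm_natCast_le_one hn
  intro x y
  exact IsUltrametricDist.norm_add_le_max x y

/-- a nonarchimedean absolute value extends to the algebraic closure -/
theorem exists_ext_gen {K : Type u} [Field K] (V : AbsoluteValue K ℝ)
    (hV : IsNonarchimedean V) : ∃ w : AbsoluteValue (AlgebraicClosure K) ℝ, Ext V w := by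
  classical
  by_cases hnt : V.IsNontrivial
  · have hnat : ∀ n : ℕ, V (n : K) ≤ 1 := by
      intro n
      exact_mod_cast hV.apply_intCast_le_one (n := (n : ℤ))
    haveI hu : IsUltrametricDist V.Completion := by
      rw [isUltrametricDist_iff_forall_norm_natCast_le_one]
      intro n
      have h1 : ((n : ℕ) : V.Completion) = ((n : WithAbs V) : V.Completion) := by
        have := map_natCast (UniformSpace.Completion.coeRingHom (α := WithAbs V)) n
        exact this.symm
      rw [h1, UniformSpace.Completion.norm_coe]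
      exact hnat n
    have hcoe : ∀ x : K, ‖((WithAbs.toAbs V x : WithAbs V) : V.Completion)‖ = V x := by
      intro x
      rw [UniformSpace.Completion.norm_coe]
      rfl
    obtain ⟨ϖ, hϖ⟩ := hnt.exists_abv_gt_one
    have hnt' : ∃ x : V.Completion, 1 < ‖x‖ :=
      ⟨((WithAbs.toAbs V ϖ : WithAbs V) : V.Completion), by rw [hcoe]; exact hϖ⟩
    letI : NontriviallyNormedField V.Completion :=
      { (inferInstance : NormedField V.Completion) with non_trivial := hnt' }
    let Ω := AlgebraicClosure V.Completion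
    letI hΩ : NormedField Ω := spectralNorm.normedField V.Completion Ω
    let ι : K →+* Ω := ((algebraMap V.Completion Ω).comp
      (UniformSpace.Completion.coeRingHom (α := WithAbs V))).comp
        (WithAbs.equiv V).symm.toRingHom
    have hι : ∀ x : K, ‖ι x‖ = V x := by
      intro x
      have h1 := spectralNorm_extends (K := V.Completion) (L := Ω)
        ((WithAbs.toAbs V x : WithAbs V) : V.Completion)
      rw [hcoe] at h1
      exact h1
    let _ : Algebra K Ω := ι.toAlgebra
    let ψ : AlgebraicClosure K →ₐ[K] Ω := IsAlgClosed.lift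
    let w : AbsoluteValue (AlgebraicClosure K) ℝ :=
      { toFun := fun x => ‖ψ x‖
        map_mul' := fun x y => by rw [map_mul, norm_mul]
        nonneg' := fun x => norm_nonneg _
        eq_zero' := fun x => by
          show ‖ψ x‖ = 0 ↔ x = 0
          rw [norm_eq_zero, map_eq_zero]
        add_le' := fun x y => by
          show ‖ψ (x + y)‖ ≤ ‖ψ x‖ + ‖ψ y‖
          rw [map_add]
          exact norm_add_le _ _ }
    refine ⟨w, fun x => ?_⟩
    show ‖ψ (algebraMap K (AlgebraicClosure K) x)‖ = V x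
    rw [AlgHom.commutes]
    exact hι x
  · rw [AbsoluteValue.not_isNontrivial_iff] at hnt
    refine ⟨AbsoluteValue.trivial, fun x => ?_⟩
    by_cases hx : x = 0
    · subst hx
      simp
    · rw [AbsoluteValue.trivial_apply (by simpa using hx), hnt x hx]

/-- the Green function at a preperiodic vector -/
theorem gr_pre {K : Type u} [Field K] {d : ℕ} (hd : 2 ≤ d)
    {f : Fin 2 → MvPolynomial (Fin 2) K} (hf : ∀ i, (f i).IsHomogeneous d) (h0 : rs f d ≠ 0)
    {x : Fin 2 → K} (hx : x ≠ 0) (h : Pre f x) :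
    ∃ (l : ℝ) (c : K), c ≠ 0 ∧ ∀ (V : AbsoluteValue K ℝ) (w : AbsoluteValue (AlgebraicClosure K) ℝ),
      Ext V w → Gr w (ev (fL K f)) d (vL K x) = l * log (V c) := by
  obtain ⟨m, n, hmn, c, hc, hcx⟩ := h
  refine ⟨1 / ((d : ℝ) ^ n - (d : ℝ) ^ m), c, hc, ?_⟩
  intro V w hVw
  have hFib := F4_fib (by omega : 1 ≤ d) hf h0 w
  have hvx : vL K x ≠ 0 := F4_vL_ne hx
  have hgi : ∀ j : ℕ, Gr w (ev (fL K f)) d ((ev (fL K f))^[j] (vL K x)) =
      (d : ℝ) ^ j * Gr w (ev (fL K f)) d (vL K x) ∧ (ev (fL K f))^[j] (vL K x) ≠ 0 := by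
    intro j
    induction j with
    | zero => simpa using hvx
    | succ j ih =>
      rw [Function.iterate_succ_apply']
      refine ⟨?_, fib_ne_zero hFib ih.2⟩
      rw [gr_map hd hFib ih.2, ih.1]
      ring
  have h1 := (hgi n).1
  have h2 := (hgi m)
  have h3 : (ev (fL K f))^[n] (vL K x) =
      algebraMap K (AlgebraicClosure K) c • (ev (fL K f))^[m] (vL K x) := by
    rw [F4_iter, F4_iter, hcx]
    funext i
    simp [vL]
  have hc' : algebraMap K (AlgebraicClosure K) c ≠ 0 := by simpa using hc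
  rw [h3, gr_smul hd hFib h2.2 hc', h2.1, hVw c] at h1
  have hd1 : (1 : ℝ) < d := by exact_mod_cast (by omega : 1 < d)
  have hlt : (d : ℝ) ^ m < (d : ℝ) ^ n := pow_lt_pow_right₀ hd1 hmn
  have h4 : (d : ℝ) ^ n - (d : ℝ) ^ m ≠ 0 := by linarith
  rw [div_mul_eq_mul_div, eq_div_iff h4]
  linarith

/-- size of the pairing at the absolute value `w` of the closure -/
noncomputable def G {K : Type u} [Field K] (d : ℕ) (f : Fin 2 → MvPolynomial (Fin 2) K)
    (w : AbsoluteValue (AlgebraicClosure K) ℝ) (x y : Fin 2 → K) : ℝ :=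
  gg w (ev (fL K f)) d (log (w (rs (fL K f) d))) (vL K x) (vL K y)

/-- size of the map at the absolute value `w` of the closure -/
noncomputable def msz {K : Type u} [Field K] (d : ℕ) (f : Fin 2 → MvPolynomial (Fin 2) K)
    (w : AbsoluteValue (AlgebraicClosure K) ℝ) : ℝ :=
  mm w (ev (fL K f)) d (log (w (rs (fL K f) d)))

/-- the pairing of two preperiodic vectors is a combination of logarithms of elements of `K` -/
theorem G_pre {K : Type u} [Field K] {d : ℕ} (hd : 2 ≤ d)
    {f : Fin 2 → MvPolynomial (Fin 2) K} (hf : ∀ i, (f i).IsHomogeneous d) (h0 : rs f d ≠ 0)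
    {x y : Fin 2 → K} (hx : Pre f x) (hy : Pre f y) (hxy : wd x y ≠ 0) :
    ∃ (a : Fin 4 → ℝ) (z : Fin 4 → K), (∀ i, z i ≠ 0) ∧
      ∀ (V : AbsoluteValue K ℝ) (w : AbsoluteValue (AlgebraicClosure K) ℝ), Ext V w →
        G d f w x y = ∑ i, a i * log (V (z i)) := by
  obtain ⟨l, c, hc, H1⟩ := gr_pre hd hf h0 (wd_ne_left hxy) hx
  obtain ⟨l', c', hc', H2⟩ := gr_pre hd hf h0 (wd_ne_right hxy) hy
  refine ⟨![-1, l, l', -1 / (d * (d - 1))], ![wd x y, c, c', rs f d], ?_, ?_⟩
  · intro i
    fin_cases i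
    · exact hxy
    · exact hc
    · exact hc'
    · exact h0
  · intro V w hVw
    unfold G gg
    rw [H1 V w hVw, H2 V w hVw, F4_wd, hVw, F4_rs, hVw, Fin.sum_univ_four]
    simp only [ta, Matrix.cons_val_zero, Matrix.cons_val_one, Matrix.cons_val]
    ring

/-- scaling of the pairing -/
theorem G_equiv {K : Type u} [Field K] {d : ℕ} (hd : 2 ≤ d)
    {f : Fin 2 → MvPolynomial (Fin 2) K} (hf : ∀ i, (f i).IsHomogeneous d) (h0 : rs f d ≠ 0)
    {V V' : AbsoluteValue K ℝ} {w w' : AbsoluteValue (AlgebraicClosure K) ℝ} (hw : Ext V w)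
    (hw' : Ext V' w') {s : ℝ} (hs : ∀ z : K, log (V' z) = s * log (V z))
    {x y : Fin 2 → K} (hx : Pre f x) (hy : Pre f y) (hxy : wd x y ≠ 0) :
    G d f w' x y = s * G d f w x y := by
  obtain ⟨a, z, hz, H⟩ := G_pre hd hf h0 hx hy hxy
  rw [H V w hw, H V' w' hw', Finset.mul_sum]
  refine Finset.sum_congr rfl fun i _ => ?_
  rw [hs]
  ring


end Pool.Agent.TH450.FG
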