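import Pool.Agent.TH450.FG.B
import Pool.Agent.TH450.FG.E

/-!
# Preperiodic points over function fields in terms of the number of bad places (helper450)
-/

set_option autoImplicit false

namespace Pool.Agent.TH450.FG

open Pool.Agent.H951R3.PB Pool.Agent.TH450.PC Real Finset

universe u v w

/-- a family of places of `K` over `k` with a product formula -/
structure PF (k : Type v) (K : Type u) [Field k] [Field K] [Algebra k K] where
  Pl : Type w
  V : Pl → AbsoluteValue K ℝ
  na : ∀ v, IsNonarchimedean (V v)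
  triv : ∀ v (c : k), c ≠ 0 → V v (algebraMap k K c) = 1
  wt : Pl → ℝ
  wt_pos : ∀ v, 0 < wt v
  fin : ∀ x : K, x ≠ 0 → {v | V v x ≠ 1}.Finite
  prod : ∀ x : K, x ≠ 0 → ∀ S : Finset Pl, (∀ v, v ∉ S → V v x = 1) →
    ∑ v ∈ S, wt v * log (V v x) = 0
  const : ∀ x : K, x ≠ 0 → (∀ v, V v x = 1) → IsAlgebraic k x

/-- the global sum of the pairing of two preperiodic vectors vanishes -/
theorem G_sum {k : Type v} {K : Type u} [Field k] [Field K] [Algebra k K]
    (Q : PF.{u, v, w} k K) (w : Q.Pl → AbsoluteValue (AlgebraicClosure K) ℝ)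
    (hw : ∀ v, Ext (Q.V v) (w v)) {d : ℕ} (hd : 2 ≤ d)
    {f : Fin 2 → MvPolynomial (Fin 2) K} (hf : ∀ i, (f i).IsHomogeneous d) (h0 : rs f d ≠ 0)
    {x y : Fin 2 → K} (hx : Pre f x) (hy : Pre f y) (hxy : wd x y ≠ 0) :
    ∃ S : Finset Q.Pl, (∀ v, v ∉ S → G d f (w v) x y = 0) ∧ ∀ S', S ⊆ S' →
      ∑ v ∈ S', Q.wt v * G d f (w v) x y = 0 := by
  classical
  obtain ⟨a, z, hz, H⟩ := G_pre hd hf h0 hx hy hxy
  set S : Finset Q.Pl := Finset.univ.biUnion fun i => (Q.fin (z i) (hz i)).toFinset with hS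
  have hout : ∀ v, v ∉ S → ∀ i, Q.V v (z i) = 1 := by
    intro v hv i
    by_contra hne
    apply hv
    rw [hS, Finset.mem_biUnion]
    exact ⟨i, Finset.mem_univ _, by simpa using hne⟩
  have hG : ∀ v, G d f (w v) x y = ∑ i, a i * log (Q.V v (z i)) := fun v => H _ _ (hw v)
  refine ⟨S, ?_, ?_⟩
  · intro v hv
    rw [hG]
    refine Finset.sum_eq_zero fun i _ => ?_
    rw [hout v hv i]
    simp
  · intro S' hS'
    have h1 : ∑ v ∈ S', Q.wt v * G d f (w v) x y =
        ∑ i, a i * ∑ v ∈ S', Q.wt v * log (Q.V v (z i)) := by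
      simp_rw [hG, Finset.mul_sum]
      rw [Finset.sum_comm]
      refine Finset.sum_congr rfl fun i _ => Finset.sum_congr rfl fun v _ => ?_
      ring
    rw [h1]
    refine Finset.sum_eq_zero fun i _ => ?_
    rw [Q.prod (z i) (hz i) S' fun v hv => hout v (fun h => hv (hS' h)) i, mul_zero]

/-- potentially good reduction at a trivial absolute value -/
theorem potgood_trivial {K : Type u} [Field K] {d : ℕ} (hd : 1 ≤ d)
    {f : Fin 2 → MvPolynomial (Fin 2) K} (hf : ∀ i, (f i).IsHomogeneous d) (h0 : rs f d ≠ 0)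
    {V : AbsoluteValue K ℝ} (hV : ¬ V.IsNontrivial) : PotGood V d f := by
  classical
  rw [AbsoluteValue.not_isNontrivial_iff] at hV
  refine ⟨AbsoluteValue.trivial, ?_, fL K f, fun i => (hf i).map _, ⟨?_, ?_⟩, 1, 1, ?_,
    one_ne_zero, ?_⟩
  · intro x
    by_cases hx : x = 0
    · subst hx
      simp
    · rw [AbsoluteValue.trivial_apply (by simpa using hx), hV x hx]
  · intro i m
    by_cases hz : (fL K f i).coeff m = 0
    · rw [hz]
      simp
    · rw [AbsoluteValue.trivial_apply hz]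
  · intro x _ hx
    obtain ⟨j, hj⟩ := hx
    have hx0 : x ≠ 0 := by
      rintro rfl
      simp at hj
    have h1 := mt ((rs_ne_zero_iff hd fun i => (hf i).map _).1 (F4_rs_ne h0) x) hx0
    by_contra hcon
    push Not at hcon
    apply h1
    funext i
    by_contra hne
    exact hcon i (AbsoluteValue.trivial_apply hne)
  · simp
  · intro x
    simp

/-- **The bound.** -/
theorem core (d : ℕ) (hd : 2 ≤ d) : ∃ C : ℝ, 0 < C ∧ ∀ (k : Type v) (K : Type u) [Field k]
    [Field K] [Algebra k K] (Q : PF.{u, v, w} k K)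
    (f : Fin 2 → MvPolynomial (Fin 2) K), (∀ i, (f i).IsHomogeneous d) → rs f d ≠ 0 →
    (¬ ∃ (A : Matrix (Fin 2) (Fin 2) (AlgebraicClosure K))
      (g : Fin 2 → MvPolynomial (Fin 2) (algebraicClosure k K))
      (c : AlgebraicClosure K), A.det ≠ 0 ∧ (∀ i, (g i).IsHomogeneous d) ∧ c ≠ 0 ∧
      ∀ v : Fin 2 → AlgebraicClosure K, ev (fL K f) (A.mulVec v) =
        c • A.mulVec (ev (fun i => (g i).map
          (algebraMap (algebraicClosure k K) (AlgebraicClosure K))) v)) →
    ∀ T : Finset (AbsoluteValue K ℝ), (∀ v : Q.Pl, (Q.V v).IsNontrivial →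
      ¬ PotGood (Q.V v) d f → ∃ t ∈ T, (Q.V v).IsEquiv t) →
    ∀ X : Finset (Fin 2 → K), (∀ x ∈ X, x ≠ 0 ∧ Pre f x) →
      (∀ x ∈ X, ∀ y ∈ X, x ≠ y → wd x y ≠ 0) →
      (X.card : ℝ) ≤ C * (T.card + 1) * log (T.card + 2) := by
  obtain ⟨M, c, hc, Hgain⟩ := gainNA.{u} d hd
  set C₀ : ℝ := M * d + 2 / c + 1 with hC₀
  have hC₀pos : 0 < C₀ := by positivity
  obtain ⟨C', hC', Hsolve⟩ := solve_bound hC₀pos 1 le_rfl
  have hl2 : 0 < log (2 : ℝ) := log_pos (by norm_num)
  refine ⟨C' + (2 * d + 2) / log 2, by positivity, ?_⟩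
  intro k K _ _ _ Q f hf h0 hiso T hT X hX hXX
  classical
  have hconst : ∀ x : K, x ≠ 0 → (∀ v, Q.V v x = 1) →
      ∃ c : algebraicClosure k K, algebraMap (algebraicClosure k K) K c = x :=
    fun x hx h => ⟨⟨x, mem_algebraicClosure_iff.2 (Q.const x hx h)⟩, rfl⟩
  choose w hw using fun v => exists_ext_gen (Q.V v) (Q.na v)
  have hna : ∀ v, IsNonarchimedean (w v) := fun v => ext_na (Q.na v) (hw v)
  have hT0 : (0 : ℝ) ≤ T.card := Nat.cast_nonneg _
  have hlog2 : log 2 ≤ log ((T.card : ℝ) + 2) := log_le_log (by norm_num) (by linarith)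
  -- bad places
  let Bad : Q.Pl → Prop := fun v => 0 < msz d f (w v) ∧ ¬ PotGood (Q.V v) d f
  have hpos : ∀ v, ¬ Bad v → ∀ x y, Pre f x → Pre f y → wd x y ≠ 0 → 0 ≤ G d f (w v) x y := by
    intro v hv x y hx hy hxy
    have hxy' : wd (vL K x) (vL K y) ≠ 0 := by
      rw [F4_wd]
      simpa using hxy
    by_cases hm : msz d f (w v) ≤ 0
    · exact gg_nonneg d hd _ (w v) (hna v) _ _ (F4_fib (by omega : 1 ≤ d) hf h0 (w v)) hm hxy'
    · have hP : PotGood (Q.V v) d f := by
        by_contra hP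
        exact hv ⟨not_le.1 hm, hP⟩
      obtain ⟨w', hw', hP'⟩ := hP
      have h1 : 0 ≤ G d f w' x y :=
        potgood_gg hd hf (F4_rs_ne h0) w' (ext_na (Q.na v) hw') hP' hxy'
      have h2 := G_equiv hd hf h0 hw' (hw v) (s := 1) (fun z => by rw [one_mul]) hx hy hxy
      rw [one_mul] at h2
      rw [h2]
      exact h1
  by_cases hbad : ∃ v₀, Bad v₀
  · obtain ⟨v₀, hv₀⟩ := hbad
    -- the finite set of places
    have hSxy : ∀ x y : Fin 2 → K, ∃ S : Finset Q.Pl, Pre f x → Pre f y → wd x y ≠ 0 →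
        ∀ S', S ⊆ S' → ∑ v ∈ S', Q.wt v * G d f (w v) x y = 0 := by
      intro x y
      by_cases h : Pre f x ∧ Pre f y ∧ wd x y ≠ 0
      · obtain ⟨S, -, hS⟩ := G_sum Q w hw hd hf h0 h.1 h.2.1 h.2.2
        exact ⟨S, fun _ _ _ => hS⟩
      · exact ⟨∅, fun h1 h2 h3 => absurd ⟨h1, h2, h3⟩ h⟩
    choose Sf hSf using hSxy
    set S : Finset Q.Pl := insert v₀ (X.biUnion fun x => X.biUnion fun y => Sf x y) with hS
    have hSsum : ∀ x ∈ X, ∀ y ∈ X, x ≠ y → ∑ v ∈ S, Q.wt v * G d f (w v) x y = 0 := by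
      intro x hx y hy hxy
      refine hSf x y (hX x hx).2 (hX y hy).2 (hXX x hx y hy hxy) S ?_
      intro v hv
      rw [hS, Finset.mem_insert, Finset.mem_biUnion]
      exact Or.inr ⟨x, hx, Finset.mem_biUnion.2 ⟨y, hy, hv⟩⟩
    set B := S.filter Bad with hB
    have hBbad : ∀ v ∈ B, Bad v := fun v hv => (Finset.mem_filter.1 hv).2
    have hv₀B : v₀ ∈ B := Finset.mem_filter.2 ⟨Finset.mem_insert_self _ _, hv₀⟩
    have hτ : ∀ v : Q.Pl, Bad v → ∃ t ∈ T, (Q.V v).IsEquiv t := by
      intro v hv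
      refine hT v ?_ hv.2
      by_contra hnt
      exact hv.2 (potgood_trivial (by omega) hf h0 hnt)
    haveI : Nonempty (AbsoluteValue K ℝ) := ⟨AbsoluteValue.trivial⟩
    choose! τ hτT hτe using hτ
    set T' : Finset (AbsoluteValue K ℝ) := B.image τ with hT'
    have hT'T : T' ⊆ T := by
      intro t ht
      rw [hT', Finset.mem_image] at ht
      obtain ⟨v, hv, rfl⟩ := ht
      exact hτT v (hBbad v hv)
    have hρ : ∀ t : {t // t ∈ T'}, ∃ v ∈ B, τ v = t.1 := by
      rintro ⟨t, ht⟩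
      rw [hT', Finset.mem_image] at ht
      exact ht
    choose ρ hρB hρτ using hρ
    have hmemT' : ∀ v ∈ B, τ v ∈ T' := fun v hv => Finset.mem_image_of_mem τ hv
    -- the scaling factors
    have hσ : ∀ v (hv : v ∈ B), ∃ s : ℝ, 0 < s ∧ ∀ z : K,
        log (Q.V v z) = s * log (Q.V (ρ ⟨τ v, hmemT' v hv⟩) z) := by
      intro v hv
      have h1 := hτe v (hBbad v hv)
      have h2 := hτe _ (hBbad _ (hρB ⟨τ v, hmemT' v hv⟩))
      rw [hρτ] at h2
      have h3 := h2.trans h1.symm
      obtain ⟨s, hs, h4⟩ := AbsoluteValue.isEquiv_iff_exists_rpow_eq.1 h3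
      refine ⟨s, hs, fun z => ?_⟩
      rw [← congrFun h4 z]
      exact rpow_log hs (AbsoluteValue.nonneg _ _)
    choose! σ hσ0 hσ1 using hσ
    haveI : Nonempty {t // t ∈ T'} := ⟨⟨τ v₀, hmemT' v₀ hv₀B⟩⟩
    set ω : {t // t ∈ T'} → ℝ := fun t =>
      ∑ v ∈ B.filter (fun v => τ v = t.1), Q.wt v * σ v with hω
    have hwt : ∀ v, (0 : ℝ) < Q.wt v := Q.wt_pos
    have hω0 : ∀ t, 0 < ω t := by
      intro t
      refine Finset.sum_pos (fun v hv => ?_) ⟨ρ t, Finset.mem_filter.2 ⟨hρB t, hρτ t⟩⟩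
      exact mul_pos (hwt v) (hσ0 v (Finset.mem_filter.1 hv).1)
    have hglob : ∀ x ∈ X, ∀ y ∈ X, x ≠ y → ∑ t, ω t * G d f (w (ρ t)) x y ≤ 0 := by
      intro x hx y hy hxy
      have px := (hX x hx).2
      have py := (hX y hy).2
      have hwxy := hXX x hx y hy hxy
      have h1 : ∑ t : {t // t ∈ T'}, ω t * G d f (w (ρ t)) x y =
          ∑ v ∈ B, Q.wt v * G d f (w v) x y := by
        have h2 : ∀ t : {t // t ∈ T'}, ω t * G d f (w (ρ t)) x y =
            ∑ v ∈ B.filter (fun v => τ v = t.1), Q.wt v * G d f (w v) x y := by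
          intro t
          rw [hω]
          simp only
          rw [Finset.sum_mul]
          refine Finset.sum_congr rfl fun v hv => ?_
          obtain ⟨hv1, hv2⟩ := Finset.mem_filter.1 hv
          have h3 : (⟨τ v, hmemT' v hv1⟩ : {t // t ∈ T'}) = t := Subtype.ext hv2
          have h4 := hσ1 v hv1
          rw [h3] at h4
          rw [G_equiv hd hf h0 (hw (ρ t)) (hw v) h4 px py hwxy]
          ring
        simp_rw [h2]
        have h6 := Finset.sum_coe_sort T' (fun t =>
          ∑ v ∈ B.filter (fun v => τ v = t), Q.wt v * G d f (w v) x y)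
        rw [h6]
        exact Finset.sum_fiberwise_of_maps_to hmemT' _
      rw [h1, ← hSsum x hx y hy hxy, hB]
      rw [← Finset.sum_filter_add_sum_filter_not S Bad]
      have h5 : 0 ≤ ∑ v ∈ S.filter (fun v => ¬ Bad v), Q.wt v * G d f (w v) x y := by
        refine Finset.sum_nonneg fun v hv => ?_
        exact mul_nonneg (hwt v).le (hpos v (Finset.mem_filter.1 hv).2 x y px py hwxy)
      linarith
    -- the count
    have hcount := count_zero hd (fun t => ω t * msz d f (w (ρ t)))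
      (fun t => mul_pos (hω0 t) (hBbad _ (hρB t)).1)
      (fun t x y => ω t * G d f (w (ρ t)) x y) hc X
      (by
        intro t n x hxinj hxX
        have h1 := lossNA d hd _ (w (ρ t)) (hna _) (fL K f) (fun i => (hf i).map _)
          (F4_rs_ne h0) n (fun j => vL K (x j)) (fun j => F4_vL_ne (hX _ (hxX j)).1) (by
            intro i j hij
            rw [F4_wd]
            simpa using hXX _ (hxX i) _ (hxX j) (fun h => hij (hxinj h)))
        have h2 := mul_le_mul_of_nonneg_left h1 (hω0 t).le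
        rw [Finset.mul_sum] at h2
        simp_rw [Finset.mul_sum] at h2
        refine le_trans (le_of_eq ?_) h2
        unfold msz
        ring)
      (M := M) (by
        intro t
        obtain ⟨cell, hcell⟩ := Hgain _ (w (ρ t)) (hna _) _ _
          (F4_fib (by omega : 1 ≤ d) hf h0 (w (ρ t))) (hBbad _ (hρB t)).1
        refine ⟨fun x => cell (vL K x), ?_⟩
        intro x hx y hy hxy hcxy
        have h1 := hcell (vL K x) (vL K y) (by
          rw [F4_wd]
          simpa using hXX x hx y hy hxy) hcxy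
        have h2 := mul_le_mul_of_nonneg_left h1 (hω0 t).le
        refine le_trans (le_of_eq ?_) h2
        unfold msz
        ring)
      hglob
    have hcard : (Fintype.card {t // t ∈ T'} : ℝ) ≤ T.card + 1 := by
      rw [Fintype.card_coe]
      have : T'.card ≤ T.card := Finset.card_le_card hT'T
      have h1 : (T'.card : ℝ) ≤ T.card := by exact_mod_cast this
      linarith
    have h1 : (X.card : ℝ) ≤ C₀ * (1 + C₀ * ((T.card : ℝ) + 1) * Nat.log d X.card) := by
      refine hcount.trans ?_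
      have e1 : (M * d : ℝ) ≤ C₀ := by
        rw [hC₀]
        have : 0 < 2 / c := by positivity
        linarith
      have e2 : 2 / c ≤ C₀ := by
        rw [hC₀]
        have : (0 : ℝ) ≤ M * d := by positivity
        linarith
      gcongr
    have h2 := Hsolve d X.card ((T.card : ℝ) + 1) ((T.card : ℝ) + 1) hd (by linarith) (by linarith)
      (by linarith) h1
    have h3 : (1 : ℝ) + (T.card + 1) = T.card + 2 := by ring
    rw [h3] at h2
    refine h2.trans ?_
    have h4 : 0 ≤ log ((T.card : ℝ) + 2) := hl2.le.trans hlog2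
    have h5 : (0 : ℝ) ≤ (2 * d + 2) / log 2 := by positivity
    gcongr
    linarith
  · -- no bad place
    have hbad := not_exists.1 hbad
    have hG : ∀ x y : Fin 2 → K, Pre f x → Pre f y → wd x y ≠ 0 → ∀ v, G d f (w v) x y = 0 := by
      intro x y hx hy hxy v
      obtain ⟨S, hS1, hS2⟩ := G_sum Q w hw hd hf h0 hx hy hxy
      by_cases hv : v ∈ S
      · have h1 := hS2 S subset_rfl
        have h2 := (Finset.sum_eq_zero_iff_of_nonneg (fun v' _ => by
          have h3 : (0 : ℝ) ≤ Q.wt v' := (Q.wt_pos v').le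
          exact mul_nonneg h3 (hpos v' (hbad v') x y hx hy hxy))).1 h1 v hv
        rcases mul_eq_zero.1 h2 with h3 | h3
        · exact absurd h3 (Q.wt_pos v).ne'
        · exact h3
      · exact hS1 v hv
    have hlt : X.card < 2 * d + 2 := by
      by_contra hcon
      push Not at hcon
      exact hiso (isotrivial_of_zero (k := algebraicClosure k K) Q.V hconst w hw hd hf h0 hG X hX hXX hcon)
    have h1 : (X.card : ℝ) ≤ 2 * d + 2 := by exact_mod_cast hlt.le
    have h5 : (0 : ℝ) ≤ (2 * d + 2) / log 2 := by positivity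
    calc (X.card : ℝ) ≤ 2 * d + 2 := h1
      _ = (2 * d + 2) / log 2 * 1 * log 2 := by rw [mul_one, div_mul_cancel₀ _ hl2.ne']
      _ ≤ (2 * d + 2) / log 2 * (T.card + 1) * log (T.card + 2) := by
          gcongr
          linarith
      _ ≤ (C' + (2 * d + 2) / log 2) * (T.card + 1) * log (T.card + 2) := by
          have h4 : 0 ≤ log ((T.card : ℝ) + 2) := hl2.le.trans hlog2
          gcongr
          linarith

end Pool.Agent.TH450.FG
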