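import Pool.Agent.TH450.FG.F
import Pool.Agent.TH450.FG.Comp
import Pool.Agent.W277.UB.Fin

/-!
# Places with product formula of function fields of every characteristic (helper450)
-/

set_option autoImplicit false

namespace Pool.Agent.TH450.FG

open Real Finset

universe u v w

section mk

variable {K : Type u} [Field K]

/-- the absolute value of an additive valuation -/
noncomputable def absO (o : K → ℤ) (hmul : ∀ x y, x ≠ 0 → y ≠ 0 → o (x * y) = o x + o y)
    (hadd : ∀ x y (m : ℤ), x ≠ 0 → y ≠ 0 → x + y ≠ 0 → m ≤ o x → m ≤ o y → m ≤ o (x + y)) :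
    AbsoluteValue K ℝ := by
  classical
  exact
  { toFun := fun x => if x = 0 then 0 else Real.exp (-(o x : ℝ))
    map_mul' := by
      intro x y
      by_cases hx : x = 0
      · simp [hx]
      by_cases hy : y = 0
      · simp [hy]
      simp only [mul_eq_zero, hx, hy, or_self, if_false]
      rw [hmul x y hx hy, ← Real.exp_add]
      congr 1
      push_cast
      ring
    nonneg' := by
      intro x
      show 0 ≤ (if x = 0 then (0:ℝ) else Real.exp (-(o x : ℝ)))
      split_ifs
      · exact le_refl 0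
      · exact (Real.exp_pos _).le
    eq_zero' := by
      intro x
      show (if x = 0 then (0:ℝ) else Real.exp (-(o x : ℝ))) = 0 ↔ x = 0
      split_ifs with h
      · simp [h]
      · simp [h, (Real.exp_pos _).ne']
    add_le' := by
      intro x y
      show (if x + y = 0 then (0:ℝ) else Real.exp (-(o (x + y) : ℝ))) ≤
        (if x = 0 then (0:ℝ) else Real.exp (-(o x : ℝ))) +
        (if y = 0 then (0:ℝ) else Real.exp (-(o y : ℝ)))
      by_cases hx : x = 0
      · simp [hx]
      by_cases hy : y = 0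
      · simp [hy]
      by_cases hxy : x + y = 0
      · simp only [hxy, if_true, hx, hy, if_false]
        positivity
      simp only [hx, hy, hxy, if_false]
      have h := hadd x y (min (o x) (o y)) hx hy hxy (min_le_left _ _) (min_le_right _ _)
      rcases min_choice (o x) (o y) with h' | h'
      · rw [h'] at h
        have : Real.exp (-(o (x + y) : ℝ)) ≤ Real.exp (-(o x : ℝ)) := by
          apply Real.exp_le_exp.mpr
          have : (o x : ℝ) ≤ o (x + y) := by exact_mod_cast h
          linarith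
        have h2 := Real.exp_pos (-(o y : ℝ))
        linarith
      · rw [h'] at h
        have : Real.exp (-(o (x + y) : ℝ)) ≤ Real.exp (-(o y : ℝ)) := by
          apply Real.exp_le_exp.mpr
          have : (o y : ℝ) ≤ o (x + y) := by exact_mod_cast h
          linarith
        have h2 := Real.exp_pos (-(o x : ℝ))
        linarith }

theorem absO_apply (o : K → ℤ) (hmul : ∀ x y, x ≠ 0 → y ≠ 0 → o (x * y) = o x + o y)
    (hadd : ∀ x y (m : ℤ), x ≠ 0 → y ≠ 0 → x + y ≠ 0 → m ≤ o x → m ≤ o y → m ≤ o (x + y))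
    (x : K) (hx : x ≠ 0) : absO o hmul hadd x = Real.exp (-(o x : ℝ)) := by
  classical
  show (if x = 0 then 0 else Real.exp (-(o x : ℝ))) = _
  rw [if_neg hx]

theorem absO_na (o : K → ℤ) (hmul : ∀ x y, x ≠ 0 → y ≠ 0 → o (x * y) = o x + o y)
    (hadd : ∀ x y (m : ℤ), x ≠ 0 → y ≠ 0 → x + y ≠ 0 → m ≤ o x → m ≤ o y → m ≤ o (x + y)) :
    IsNonarchimedean (absO o hmul hadd) := by
  intro x y
  by_cases hx : x = 0
  · subst hx
    rw [zero_add]
    exact le_max_right _ _
  by_cases hy : y = 0
  · subst hy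
    rw [add_zero]
    exact le_max_left _ _
  by_cases hxy : x + y = 0
  · rw [hxy, map_zero]
    exact ((absO o hmul hadd).nonneg x).trans (le_max_left _ _)
  have h := hadd x y (min (o x) (o y)) hx hy hxy (min_le_left _ _) (min_le_right _ _)
  rw [absO_apply o hmul hadd x hx, absO_apply o hmul hadd y hy, absO_apply o hmul hadd _ hxy]
  rcases min_choice (o x) (o y) with h' | h'
  · rw [h'] at h
    refine le_trans ?_ (le_max_left _ _)
    apply Real.exp_le_exp.mpr
    have : (o x : ℝ) ≤ o (x + y) := by exact_mod_cast h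
    linarith
  · rw [h'] at h
    refine le_trans ?_ (le_max_right _ _)
    apply Real.exp_le_exp.mpr
    have : (o y : ℝ) ≤ o (x + y) := by exact_mod_cast h
    linarith

/-- construction of a family of places with product formula -/
theorem mk_PF (k : Type v) (K : Type u) [Field k] [Field K] [Algebra k K]
    {L : Type*} [Field L] (φ : K →+* L) (Pl : Type w) (ord : Pl → L → ℤ) (wt : Pl → ℤ)
    (wt_one : ∀ v, 1 ≤ wt v)
    (ord_mul : ∀ v x y, x ≠ 0 → y ≠ 0 → ord v (x * y) = ord v x + ord v y)
    (ord_add : ∀ v x y (m : ℤ), x ≠ 0 → y ≠ 0 → x + y ≠ 0 → m ≤ ord v x → m ≤ ord v y →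
      m ≤ ord v (x + y))
    (ord_alg : ∀ v (c : k), c ≠ 0 → ord v (φ (algebraMap k K c)) = 0)
    (fin : ∀ x, x ≠ 0 → {v | ord v x ≠ 0}.Finite)
    (prod_formula : ∀ x, x ≠ 0 → ∀ S : Finset Pl, (∀ v, v ∉ S → 0 ≤ ord v x) →
      ∑ v ∈ S, wt v * ord v x ≤ 0)
    (const : ∀ x : K, x ≠ 0 → (∀ v, 0 ≤ ord v (φ x)) → IsAlgebraic k x) :
    Nonempty (PF.{u, v, w} k K) := by
  have hφ : ∀ x : K, x ≠ 0 → φ x ≠ 0 := fun x hx => (map_ne_zero φ).2 hx
  have hm : ∀ v (x y : K), x ≠ 0 → y ≠ 0 → ord v (φ (x * y)) = ord v (φ x) + ord v (φ y) :=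
    fun v x y hx hy => by rw [map_mul, ord_mul v _ _ (hφ x hx) (hφ y hy)]
  have ha : ∀ v (x y : K) (m : ℤ), x ≠ 0 → y ≠ 0 → x + y ≠ 0 → m ≤ ord v (φ x) →
      m ≤ ord v (φ y) → m ≤ ord v (φ (x + y)) := by
    intro v x y m hx hy hxy h1 h2
    have h3 := hφ _ hxy
    rw [map_add] at h3 ⊢
    exact ord_add v _ _ m (hφ x hx) (hφ y hy) h3 h1 h2
  have hone : ∀ v (x : K), x ≠ 0 →
      (absO (fun x => ord v (φ x)) (hm v) (ha v) x = 1 ↔ ord v (φ x) = 0) := by
    intro v x hx
    rw [absO_apply _ _ _ x hx, Real.exp_eq_one_iff, neg_eq_zero]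
    exact_mod_cast Iff.rfl
  have hlog : ∀ v (x : K), x ≠ 0 →
      log (absO (fun x => ord v (φ x)) (hm v) (ha v) x) = -(ord v (φ x) : ℝ) := by
    intro v x hx
    rw [absO_apply _ _ _ x hx, Real.log_exp]
  have hinv : ∀ v (x : L), x ≠ 0 → ord v x⁻¹ = -ord v x := by
    intro v x hx
    have h1 := ord_mul v x x⁻¹ hx (inv_ne_zero hx)
    rw [mul_inv_cancel₀ hx] at h1
    have h2 := ord_mul v 1 1 one_ne_zero one_ne_zero
    rw [mul_one] at h2
    omega
  have hprod : ∀ x : L, x ≠ 0 → ∀ S : Finset Pl, (∀ v, v ∉ S → ord v x = 0) →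
      ∑ v ∈ S, wt v * ord v x = 0 := by
    intro x hx S hS
    have h1 := prod_formula x hx S fun v hv => (hS v hv).ge
    have h2 := prod_formula x⁻¹ (inv_ne_zero hx) S fun v hv => by
      rw [hinv v x hx, hS v hv]
      simp
    have h3 : ∑ v ∈ S, wt v * ord v x⁻¹ = -∑ v ∈ S, wt v * ord v x := by
      rw [← Finset.sum_neg_distrib]
      apply Finset.sum_congr rfl
      intro v _
      rw [hinv v x hx]
      ring
    linarith
  refine ⟨{ Pl := Pl, V := fun v => absO (fun x => ord v (φ x)) (hm v) (ha v),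
            na := fun v => absO_na _ _ _, triv := ?_, wt := fun v => wt v, wt_pos := ?_,
            fin := ?_, prod := ?_, const := ?_ }⟩
  · intro v c hc
    exact (hone v _ ((map_ne_zero _).2 hc)).2 (ord_alg v c hc)
  · intro v
    have := wt_one v
    exact_mod_cast (by omega : 0 < wt v)
  · intro x hx
    refine (fin (φ x) (hφ x hx)).subset fun v hv => ?_
    exact fun h => hv ((hone v x hx).2 h)
  · intro x hx S hS
    have h1 := hprod (φ x) (hφ x hx) S fun v hv => (hone v x hx).1 (hS v hv)
    have h2 : ∑ v ∈ S, (wt v : ℝ) * log (absO (fun x => ord v (φ x)) (hm v) (ha v) x) =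
        -((∑ v ∈ S, wt v * ord v (φ x) : ℤ) : ℝ) := by
      push_cast
      rw [← Finset.sum_neg_distrib]
      refine Finset.sum_congr rfl fun v _ => ?_
      rw [hlog v x hx]
      ring
    rw [h2, h1]
    simp
  · intro x hx h
    exact const x hx fun v => ((hone v x hx).1 (h v)).ge

end mk

/-- Function fields of every characteristic. -/
theorem exists_PF (k : Type v) (K : Type u) [Field k] [Field K] [Algebra k K]
    (hFG : (⊤ : IntermediateField k K).FG)
    (hx : ∃ x : K, Transcendental k x ∧ Algebra.IsAlgebraic (IntermediateField.adjoin k {x}) K) :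
    Nonempty (PF.{u, v, u} k K) := by
  obtain ⟨p, hp⟩ := CharP.exists k
  rcases CharP.char_is_prime_or_zero k p with hprime | h0
  · haveI : Fact p.Prime := ⟨hprime⟩
    haveI : CharP (EE k K) p :=
      (RingHom.charP_iff (algebraMap k (EE k K)) (algebraMap k (EE k K)).injective p).mp
        inferInstance
    haveI : CharP (LL k K) p :=
      (RingHom.charP_iff (algebraMap (EE k K) (LL k K))
        (algebraMap (EE k K) (LL k K)).injective p).mp inferInstance
    haveI : IsAlgClosed (EE k K) := IsAlgClosure.isAlgClosed k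
    obtain ⟨Q, -, -⟩ := Pool.Agent.TH951.P.exists_pd_ff p (EE k K) (LL k K) (LL_fg k K hFG)
      (LL_trans k K hx)
    refine mk_PF k K (phi k K) Q.Pl Q.ord Q.wt Q.wt_one Q.ord_mul Q.ord_add ?_ Q.fin
      Q.prod_formula ?_
    · intro v c hc
      rw [phi_alg]
      exact Q.ord_alg v _ (by simpa using hc)
    · intro x hx h
      obtain ⟨c, hc⟩ := Q.const _ ((map_ne_zero (phi k K)).2 hx) h
      have h1 : algebraMap K (AlgebraicClosure K) x = (c : AlgebraicClosure K) := by
        rw [← phi_val k K x, ← hc]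
        rfl
      have h2 : IsAlgebraic k (c : AlgebraicClosure K) := mem_algebraicClosure_iff.1 c.2
      rw [← h1] at h2
      exact (isAlgebraic_algebraMap_iff (algebraMap K (AlgebraicClosure K)).injective).mp h2
  · subst h0
    haveI : CharZero k := CharP.charP_to_charZero k
    obtain ⟨Q⟩ := Pool.Agent.W277.UB.exists_placeData_ff k K hFG hx
    refine mk_PF k K (RingHom.id K) Q.Pl Q.ord Q.wt Q.wt_one Q.ord_mul Q.ord_add ?_ Q.fin
      Q.prod_formula ?_
    · intro v c hc
      have h1 : algebraMap k K c = algebraMap (algebraicClosure k K) K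
          (algebraMap k (algebraicClosure k K) c) := rfl
      rw [RingHom.id_apply, h1]
      exact Q.ord_alg v _ (by simpa using hc)
    · intro x hx h
      obtain ⟨c, hc⟩ := Q.const x hx h
      rw [← hc]
      exact mem_algebraicClosure_iff.1 c.2

end Pool.Agent.TH450.FG
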